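import Pool.Agent.H612.AffMain

/-!
# Linear polynomial projection, and instances with a fixed polynomial `f`
-/

namespace Pool.Agent.NPC.H768AP

open H612 MvPolynomial

/-- The linear polynomial projection problem: `f` and `g` are correctly described polynomials in
`n` variables with integer coefficients and there is a real `n × n` matrix `A` with
`f(x) = g(A x)` for all `x ∈ ℝⁿ`. -/
def LinearProjection (I : AffInst) : Prop :=
  I.2.1.Valid I.1 ∧ I.2.2.Valid I.1 ∧
    ∃ A : Matrix (Fin I.1) (Fin I.1) ℝ, ∀ x : Fin I.1 → ℝ,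
      aeval x (I.2.1.toPoly I.1) = aeval (A.mulVec x) (I.2.2.toPoly I.1)

/-- The instances `(n, f, g)`, given by correct coefficient lists, in which `f` is the fixed
polynomial `p` in the first `k` of the `n` variables, `g` has degree at most
`max 4 (deg p + 2)` and, if `p` is not constant, `f(x) = g(Ax + b)` is solvable only if
`f(x) = g(Ax)` is solvable. -/
def FixedSource {k : ℕ} (p : MvPolynomial (Fin k) ℤ) (I : AffInst) : Prop :=
  I.2.1.Valid I.1 ∧ I.2.2.Valid I.1 ∧
    (∃ h : k ≤ I.1, I.2.1.toPoly I.1 = rename (Fin.castLE h) p) ∧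
    (I.2.2.toPoly I.1).totalDegree ≤ max 4 (p.totalDegree + 2) ∧
    (p.totalDegree ≠ 0 → AffineProjection I → LinearProjection I)

end Pool.Agent.NPC.H768AP
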