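import Pool.Agent.Run7.h768.AP.Red

/-!
# Hardness of polynomial projection for every fixed polynomial
-/

namespace Pool.Agent.NPC.H768AP

open ER H612 MvPolynomial Pool.Agent.H768AP

theorem hard_const {k : ℕ} (p : MvPolynomial (Fin k) ℤ) (hp : p.totalDegree = 0) :
    ERHardWithin (FixedSource p) AffineProjection := by
  obtain ⟨R, hR, hRp⟩ := exists_raw p
  have hc : ∀ x y : Fin k → ℝ, aeval x p = aeval y p := by
    intro x y
    rw [totalDegree_eq_zero_iff_eq_C.1 hp, algHom_C, algHom_C]
  refine ERHardWithin.of_sys (f := inst k 0 R)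
    (poly_inst k 0 R (α := List Con) Poly.id) (fun S => ?_)
    (fun S => ⟨aff_of_sat p hR hRp 0, sat_of_aff_const p hR hRp hc⟩)
  refine ⟨collect_valid _ _, collect_valid _ _, ⟨le_nv k S, toPoly_f p hR hRp S⟩, ?_,
    fun h => absurd hp h⟩
  have h := toPoly_g p hR hRp 0 S
  unfold inst
  simp only
  rw [h]
  exact target_deg _ _ _ _ (spoly_deg4 _ _) (by omega) (by omega)

theorem hard_nonconst {k : ℕ} (p : MvPolynomial (Fin k) ℤ) (hp : p.totalDegree ≠ 0) :
    ERHardWithin (FixedSource p) AffineProjection := by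
  obtain ⟨R, hR, hRp⟩ := exists_raw p
  -- the sign
  have hb : ∃ (b : Bool) (x : Fin k → ℝ), (sgn b : ℝ) * aeval x p <
      (sgn b : ℝ) * aeval (0 : Fin k → ℝ) p := by
    by_contra hno
    push Not at hno
    have h1 : ∀ x : Fin k → ℝ, aeval x p = aeval (0 : Fin k → ℝ) p := by
      intro x
      have h2 := hno false x
      have h3 := hno true x
      simp [sgn] at h2 h3 ⊢
      linarith
    apply hp
    have h2 : p = C (constantCoeff p) := by
      refine ext_aeval fun x => ?_
      rw [h1 x]
      simp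
    rw [h2, totalDegree_C]
  obtain ⟨b, hb⟩ := hb
  set s := p.totalDegree / 2 - 1 with hs
  have hd : p.totalDegree < 2 * s + 4 := by omega
  refine ERHardWithin.of_sys (f := inst2 k s b R)
    (poly_inst2 k s b R (α := List Con) Poly.id) (fun S => ?_)
    (fun S => ⟨fun h => ?_, sat_of_aff p hR hRp hd hb⟩)
  · refine ⟨collect_valid _ _, collect_valid _ _, ⟨le_nw k S, toPoly_f2 p hR hRp S⟩, ?_,
      fun _ h => lin_of_sat p hR hRp s b (sat_of_aff p hR hRp hd hb h)⟩
    have h := toPoly_g2 p hR hRp s b S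
    unfold inst2
    simp only
    rw [h]
    exact gp_deg _ _ _ _ (by omega) (by omega)
  · obtain ⟨h1, h2, A, h3⟩ := lin_of_sat p hR hRp s b h
    exact ⟨h1, h2, A, 0, fun x => by rw [add_zero]; exact h3 x⟩

theorem hard (k : ℕ) (p : MvPolynomial (Fin k) ℤ) :
    ERHardWithin (FixedSource p) AffineProjection := by
  by_cases hp : p.totalDegree = 0
  · exact hard_const p hp
  · exact hard_nonconst p hp

end Pool.Agent.NPC.H768AP
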