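import Mathlib

/-!
# Affine projections of `p(y) + (1 + ∑ yᵢ^e) Q(y, z)`

Let `p` be a polynomial in `k` variables and `e` an even number larger than its degree.  If
`p(x) = g(A x + b)` for `g = p(y) + (1 + ∑ yᵢ^e) Q` with `Q ≥ 0`, then `Q` has a real zero.
-/

namespace Pool.Agent.H768AP

open MvPolynomial

variable {σ : Type*}

/-- Composition of evaluations. -/
theorem eval_aeval (t : ℝ) (f : σ → Polynomial ℝ) (p : MvPolynomial σ ℤ) :
    (aeval f p).eval t = aeval (fun i => (f i).eval t) p := by
  have h := MvPolynomial.aeval_def (R := ℤ) (fun i => (f i).eval t) p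
  have h2 : (Polynomial.evalRingHom t) (aeval f p) = aeval (fun i => (f i).eval t) p := by
    rw [MvPolynomial.aeval_def, MvPolynomial.hom_eval₂, MvPolynomial.aeval_def]
    congr 1
    exact RingHom.ext_int _ _
  exact h2

/-- The degree of a polynomial along a line. -/
theorem natDegree_aeval_le (f : σ → Polynomial ℝ) (hf : ∀ i, (f i).natDegree ≤ 1)
    (p : MvPolynomial σ ℤ) : (aeval f p).natDegree ≤ p.totalDegree := by
  rw [MvPolynomial.aeval_def, MvPolynomial.eval₂_eq]
  refine Polynomial.natDegree_sum_le_of_forall_le _ _ fun s hs => ?_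
  have h0 : (algebraMap ℤ (Polynomial ℝ) (coeff s p)).natDegree = 0 := by
    have : algebraMap ℤ (Polynomial ℝ) (coeff s p) = Polynomial.C ((coeff s p : ℤ) : ℝ) := by
      simp
    rw [this, Polynomial.natDegree_C]
  have h1 : (∏ i ∈ s.support, f i ^ s i).natDegree ≤ ∑ i ∈ s.support, s i := by
    refine (Polynomial.natDegree_prod_le _ _).trans (Finset.sum_le_sum fun i _ => ?_)
    refine Polynomial.natDegree_pow_le.trans ?_
    have := Nat.mul_le_mul_left (s i) (hf i)
    simpa using this
  have h2 := Polynomial.natDegree_mul_le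
    (p := algebraMap ℤ (Polynomial ℝ) (coeff s p)) (q := ∏ i ∈ s.support, f i ^ s i)
  have h3 : (s.sum fun _ e => e) ≤ p.totalDegree := MvPolynomial.le_totalDegree hs
  have h4 : (s.sum fun _ e => e) = ∑ i ∈ s.support, s i := rfl
  omega

theorem natDegree_lin (a c : ℝ) : (Polynomial.C a * Polynomial.X + Polynomial.C c).natDegree ≤ 1 :=
  Polynomial.natDegree_linear_le

theorem coeff_lin_pow (a c : ℝ) (e : ℕ) :
    ((Polynomial.C a * Polynomial.X + Polynomial.C c) ^ e).coeff e = a ^ e := by
  have h := Polynomial.coeff_pow_of_natDegree_le (natDegree_lin a c) (m := e)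
  rw [mul_one] at h
  rw [h]
  simp

variable {n k : ℕ}

/-- The factor `1 + ∑ yᵢ^e`. -/
noncomputable def mult (h : k ≤ n) (e : ℕ) : MvPolynomial (Fin n) ℤ :=
  1 + ∑ i : Fin k, X (Fin.castLE h i) ^ e

theorem mult_aeval (h : k ≤ n) (e : ℕ) (y : Fin n → ℝ) :
    aeval y (mult h e) = 1 + ∑ i : Fin k, y (Fin.castLE h i) ^ e := by
  simp [mult]

theorem mult_pos (h : k ≤ n) {e : ℕ} (he : Even e) (y : Fin n → ℝ) : 0 < aeval y (mult h e) := by
  rw [mult_aeval]
  have : 0 ≤ ∑ i : Fin k, y (Fin.castLE h i) ^ e := Finset.sum_nonneg fun i _ => he.pow_nonneg _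
  linarith

/-- The polynomial `p(y) + (1 + ∑ yᵢ^e) Q(y, z)`. -/
noncomputable def target (h : k ≤ n) (p : MvPolynomial (Fin k) ℤ) (e : ℕ)
    (Q : MvPolynomial (Fin n) ℤ) : MvPolynomial (Fin n) ℤ :=
  rename (Fin.castLE h) p + mult h e * Q

theorem target_aeval (h : k ≤ n) (p : MvPolynomial (Fin k) ℤ) (e : ℕ)
    (Q : MvPolynomial (Fin n) ℤ) (y : Fin n → ℝ) :
    aeval y (target h p e Q) =
      aeval (fun i => y (Fin.castLE h i)) p + aeval y (mult h e) * aeval y Q := by
  unfold target
  rw [map_add, map_mul, aeval_rename]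
  rfl

theorem exists_zero (h : k ≤ n) (p : MvPolynomial (Fin k) ℤ) {e : ℕ} (he : Even e)
    (hd : p.totalDegree < e) (Q : MvPolynomial (Fin n) ℤ)
    (A : Matrix (Fin n) (Fin n) ℝ) (b : Fin n → ℝ)
    (hA : ∀ x : Fin n → ℝ, aeval x (rename (Fin.castLE h) p) =
      aeval (A.mulVec x + b) (target h p e Q)) : ∃ y : Fin n → ℝ, aeval y Q = 0 := by
  by_contra hno
  rw [not_exists] at hno
  have hA' : ∀ x : Fin n → ℝ, aeval (fun i => x (Fin.castLE h i)) p =
      aeval (fun i => (A.mulVec x + b) (Fin.castLE h i)) p +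
        aeval (A.mulVec x + b) (mult h e) * aeval (A.mulVec x + b) Q := by
    intro x
    rw [← target_aeval, ← hA, aeval_rename]
    rfl
  by_cases hc : ∀ (i : Fin k) (j : Fin n), A (Fin.castLE h i) j = 0
  · -- the first `k` coordinates of `A x + b` are constant
    have h1 := hA' b
    have h2 : ∀ i : Fin k, (A.mulVec b + b) (Fin.castLE h i) = b (Fin.castLE h i) := by
      intro i
      have : A.mulVec b (Fin.castLE h i) = 0 := by
        simp [Matrix.mulVec, dotProduct, hc i]
      rw [Pi.add_apply, this, zero_add]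
    simp only [h2] at h1
    have h3 := (mult_pos h he (A.mulVec b + b)).ne'
    have h4 := hno (A.mulVec b + b)
    have h5 : aeval (A.mulVec b + b) (mult h e) * aeval (A.mulVec b + b) Q = 0 := by linarith
    rcases mul_eq_zero.1 h5 with h6 | h6
    · exact h3 h6
    · exact h4 h6
  · push Not at hc
    obtain ⟨i₀, j, hij⟩ := hc
    -- restriction to the line `t ↦ t e_j`
    set L : Fin n → Polynomial ℝ := fun i =>
      Polynomial.C (A i j) * Polynomial.X + Polynomial.C (b i) with hL
    set P₁ : Polynomial ℝ := aeval (fun i : Fin k => if Fin.castLE h i = j then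
      (Polynomial.X : Polynomial ℝ) else 0) p with hP₁
    set P₂ : Polynomial ℝ := aeval (fun i : Fin k => L (Fin.castLE h i)) p with hP₂
    set MM : Polynomial ℝ := aeval L (mult h e) with hMM
    set QQ : Polynomial ℝ := aeval L Q with hQQ
    have hLt : ∀ t : ℝ, (fun i => (L i).eval t) = A.mulVec (Pi.single j t) + b := by
      intro t
      ext i
      simp only [hL, Polynomial.eval_add, Polynomial.eval_mul, Polynomial.eval_C,
        Polynomial.eval_X, Pi.add_apply, Matrix.mulVec_single, Pi.smul_apply,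
        Matrix.col_apply, MulOpposite.smul_eq_mul_unop, MulOpposite.unop_op]
    have hid : P₁ = P₂ + MM * QQ := by
      refine Polynomial.funext fun t => ?_
      rw [Polynomial.eval_add, Polynomial.eval_mul, hP₁, hP₂, hMM, hQQ, eval_aeval, eval_aeval,
        eval_aeval, eval_aeval, hLt]
      have h1 := hA' (Pi.single j t)
      have h2 : (fun i : Fin k => (Polynomial.eval t (if Fin.castLE h i = j then
          (Polynomial.X : Polynomial ℝ) else 0))) =
          fun i => (Pi.single j t : Fin n → ℝ) (Fin.castLE h i) := by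
        ext i
        by_cases hi : Fin.castLE h i = j
        · rw [if_pos hi, hi, Polynomial.eval_X, Pi.single_eq_same]
        · rw [if_neg hi, Polynomial.eval_zero, Pi.single_eq_of_ne hi]
      have h3 : (fun i : Fin k => Polynomial.eval t (L (Fin.castLE h i))) =
          fun i => (A.mulVec (Pi.single j t) + b) (Fin.castLE h i) := by
        ext i
        exact congrFun (hLt t) (Fin.castLE h i)
      rw [h2, h3]
      exact h1
    have d1 : P₁.natDegree ≤ p.totalDegree := by
      refine natDegree_aeval_le _ (fun i => ?_) p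
      split_ifs
      · exact Polynomial.natDegree_X_le
      · simp
    have d2 : P₂.natDegree ≤ p.totalDegree :=
      natDegree_aeval_le _ (fun i => natDegree_lin _ _) p
    have hQ0 : QQ ≠ 0 := by
      intro h0
      have h1 : QQ.eval 0 = 0 := by rw [h0, Polynomial.eval_zero]
      rw [hQQ, eval_aeval, hLt] at h1
      exact hno _ h1
    have he0 : e ≠ 0 := by omega
    have hM : MM = 1 + ∑ i : Fin k, L (Fin.castLE h i) ^ e := by
      rw [hMM]
      simp [mult]
    have hMc : 0 < MM.coeff e := by
      rw [hM, Polynomial.coeff_add, Polynomial.finsetSum_coeff, Polynomial.coeff_one, if_neg he0,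
        zero_add]
      simp only [hL, coeff_lin_pow]
      refine Finset.sum_pos' (fun i _ => he.pow_nonneg _) ⟨i₀, Finset.mem_univ _, ?_⟩
      exact he.pow_pos hij
    have hMd : e ≤ MM.natDegree := Polynomial.le_natDegree_of_ne_zero hMc.ne'
    have hM0 : MM ≠ 0 := by
      intro h0
      rw [h0, Polynomial.coeff_zero] at hMc
      exact lt_irrefl _ hMc
    have d3 : (MM * QQ).natDegree = MM.natDegree + QQ.natDegree :=
      Polynomial.natDegree_mul hM0 hQ0
    have d4 : (MM * QQ).natDegree ≤ p.totalDegree := by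
      have h1 : MM * QQ = P₁ - P₂ := by rw [hid]; ring
      rw [h1]
      exact (Polynomial.natDegree_sub_le _ _).trans (max_le d1 d2)
    omega

end Pool.Agent.H768AP
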