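import Pool.Agent.ER.Bounded
import Pool.Agent.Run7.h768.AP.Sem

/-!
# Affine projections of `p(y) ± R(y, z)` for a form `R` of large degree
-/

namespace Pool.Agent.NPC.H768AP

open ER MvPolynomial Pool.Agent.H768AP

variable {n k : ℕ}

/-! ### Homogenised constraints -/

/-- The homogenised polynomial of a constraint; `t` is the homogenising variable. -/
noncomputable def hpoly (t : Fin n) (f : ℕ → Fin n) : Con → MvPolynomial (Fin n) ℤ
  | .one i => X t * X (f i) - X t * X t
  | .add i j l => X t * X (f i) + X t * X (f j) - X t * X (f l)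
  | .mul i j l => X (f i) * X (f j) - X t * X (f l)

/-- The sum of the squares of the homogenised polynomials. -/
noncomputable def hsum (t : Fin n) (f : ℕ → Fin n) : List Con → MvPolynomial (Fin n) ℤ
  | [] => 0
  | c :: S => hpoly t f c * hpoly t f c + hsum t f S

theorem hpoly_smul (t : Fin n) (f : ℕ → Fin n) (c : Con) (a : ℝ) (x : Fin n → ℝ) :
    aeval (a • x) (hpoly t f c) = a ^ 2 * aeval x (hpoly t f c) := by
  cases c <;> simp [hpoly] <;> ring

theorem hsum_smul (t : Fin n) (f : ℕ → Fin n) (S : List Con) (a : ℝ) (x : Fin n → ℝ) :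
    aeval (a • x) (hsum t f S) = a ^ 4 * aeval x (hsum t f S) := by
  induction S with
  | nil => simp [hsum]
  | cons c S ih =>
    simp only [hsum, map_add, map_mul, ih, hpoly_smul]
    ring

theorem hsum_nonneg (t : Fin n) (f : ℕ → Fin n) (S : List Con) (x : Fin n → ℝ) :
    0 ≤ aeval x (hsum t f S) := by
  induction S with
  | nil => simp [hsum]
  | cons c S ih =>
    simp only [hsum, map_add, map_mul]
    have := mul_self_nonneg (aeval x (hpoly t f c))
    linarith

theorem hsum_zero (t : Fin n) (f : ℕ → Fin n) (S : List Con) (x : Fin n → ℝ) :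
    aeval x (hsum t f S) = 0 ↔ ∀ c ∈ S, aeval x (hpoly t f c) = 0 := by
  induction S with
  | nil => simp [hsum]
  | cons c S ih =>
    simp only [hsum, map_add, map_mul, List.mem_cons, forall_eq_or_imp]
    rw [← ih]
    have h1 := mul_self_nonneg (aeval x (hpoly t f c))
    have h2 := hsum_nonneg t f S x
    constructor
    · intro h
      exact ⟨mul_self_eq_zero.1 (by linarith), by linarith⟩
    · rintro ⟨h3, h4⟩
      rw [h3, h4]; ring

theorem holds_of_hpoly (t : Fin n) (f : ℕ → Fin n) (c : Con) (x : Fin n → ℝ) (ht : x t ≠ 0)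
    (h : aeval x (hpoly t f c) = 0) : c.Holds (fun i => x (f i) / x t) := by
  cases c with
  | one i =>
    simp only [hpoly, map_sub, map_mul, aeval_X] at h
    simp only [Con.Holds]
    rw [div_eq_one_iff_eq ht]
    have : x t * (x (f i) - x t) = 0 := by linarith
    rcases mul_eq_zero.1 this with h1 | h1
    · exact absurd h1 ht
    · linarith
  | add i j l =>
    simp only [hpoly, map_sub, map_add, map_mul, aeval_X] at h
    simp only [Con.Holds]
    have : x t * (x (f i) + x (f j) - x (f l)) = 0 := by linarith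
    rcases mul_eq_zero.1 this with h1 | h1
    · exact absurd h1 ht
    · rw [← add_div]
      congr 1
      linarith
  | mul i j l =>
    simp only [hpoly, map_sub, map_mul, aeval_X] at h
    simp only [Con.Holds]
    have h1 : x (f i) * x (f j) = x t * x (f l) := by linarith
    rw [div_mul_div_comm, h1]
    field_simp

theorem hpoly_of_holds (t : Fin n) (f : ℕ → Fin n) (c : Con) (x : Fin n → ℝ) (v : ℕ → ℝ)
    (hx : ∀ i ∈ c.vars, x (f i) = x t * v i) (h : c.Holds v) : aeval x (hpoly t f c) = 0 := by
  cases c with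
  | one i =>
    simp only [Con.vars, List.mem_singleton, forall_eq] at hx
    simp only [Con.Holds] at h
    simp only [hpoly, map_sub, map_mul, aeval_X, hx, h]
    ring
  | add i j l =>
    simp only [Con.vars, List.mem_cons, List.not_mem_nil, or_false, forall_eq_or_imp,
      forall_eq] at hx
    simp only [Con.Holds] at h
    simp only [hpoly, map_sub, map_add, map_mul, aeval_X, hx, ← h]
    ring
  | mul i j l =>
    simp only [Con.vars, List.mem_cons, List.not_mem_nil, or_false, forall_eq_or_imp,
      forall_eq] at hx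
    simp only [Con.Holds] at h
    simp only [hpoly, map_sub, map_mul, aeval_X, hx, ← h]
    ring

/-- The form `∑ yᵢ^(2s) Q(yᵢ, zⁱ)`. -/
noncomputable def form (h : k ≤ n) (s : ℕ) (F : Fin k → ℕ → Fin n) (S : List Con) :
    MvPolynomial (Fin n) ℤ :=
  ∑ i : Fin k, X (Fin.castLE h i) ^ (2 * s) * hsum (Fin.castLE h i) (F i) S

theorem form_aeval (h : k ≤ n) (s : ℕ) (F : Fin k → ℕ → Fin n) (S : List Con) (x : Fin n → ℝ) :
    aeval x (form h s F S) =
      ∑ i : Fin k, x (Fin.castLE h i) ^ (2 * s) * aeval x (hsum (Fin.castLE h i) (F i) S) := by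
  simp [form]

theorem form_smul (h : k ≤ n) (s : ℕ) (F : Fin k → ℕ → Fin n) (S : List Con) (a : ℝ)
    (x : Fin n → ℝ) :
    aeval (a • x) (form h s F S) = a ^ (2 * s + 4) * aeval x (form h s F S) := by
  rw [form_aeval, form_aeval, Finset.mul_sum]
  refine Finset.sum_congr rfl fun i _ => ?_
  rw [hsum_smul, Pi.smul_apply, smul_eq_mul, mul_pow]
  ring

theorem form_term_nonneg (h : k ≤ n) (s : ℕ) (F : Fin k → ℕ → Fin n) (S : List Con)
    (x : Fin n → ℝ) (i : Fin k) :
    0 ≤ x (Fin.castLE h i) ^ (2 * s) * aeval x (hsum (Fin.castLE h i) (F i) S) :=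
  mul_nonneg ((even_two_mul s).pow_nonneg _) (hsum_nonneg _ _ _ _)

theorem form_nonneg (h : k ≤ n) (s : ℕ) (F : Fin k → ℕ → Fin n) (S : List Con)
    (x : Fin n → ℝ) : 0 ≤ aeval x (form h s F S) := by
  rw [form_aeval]
  exact Finset.sum_nonneg fun i _ => form_term_nonneg h s F S x i

theorem form_sat (h : k ≤ n) (s : ℕ) (F : Fin k → ℕ → Fin n) (S : List Con)
    (x : Fin n → ℝ) (h0 : aeval x (form h s F S) = 0) (i : Fin k) (hi : x (Fin.castLE h i) ≠ 0) :
    SysHolds (fun a => x (F i a) / x (Fin.castLE h i)) S := by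
  rw [form_aeval, Finset.sum_eq_zero_iff_of_nonneg fun i _ => form_term_nonneg h s F S x i] at h0
  have h1 := h0 i (Finset.mem_univ _)
  rcases mul_eq_zero.1 h1 with h2 | h2
  · exact absurd h2 (pow_ne_zero _ hi)
  · rw [hsum_zero] at h2
    exact fun c hc => holds_of_hpoly _ _ c x hi (h2 c hc)

theorem form_deg (h : k ≤ n) (s : ℕ) (F : Fin k → ℕ → Fin n) (S : List Con) :
    (form h s F S).totalDegree ≤ 2 * s + 4 := by
  have h1 : ∀ (t : Fin n) (f : ℕ → Fin n) (c : Con), (hpoly t f c).totalDegree ≤ 2 := by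
    intro t f c
    have m : ∀ a b : Fin n, (X a * X b : MvPolynomial (Fin n) ℤ).totalDegree ≤ 2 := by
      intro a b
      refine (totalDegree_mul _ _).trans ?_
      rw [totalDegree_X, totalDegree_X]
    cases c with
    | one i => exact (totalDegree_sub _ _).trans (max_le (m _ _) (m _ _))
    | add i j l =>
      exact (totalDegree_sub _ _).trans (max_le ((totalDegree_add _ _).trans
        (max_le (m _ _) (m _ _))) (m _ _))
    | mul i j l => exact (totalDegree_sub _ _).trans (max_le (m _ _) (m _ _))
  have h2 : ∀ (t : Fin n) (f : ℕ → Fin n) (S : List Con), (hsum t f S).totalDegree ≤ 4 := by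
    intro t f S
    induction S with
    | nil => simp [hsum]
    | cons c S ih =>
      refine (totalDegree_add _ _).trans (max_le ?_ ih)
      refine (totalDegree_mul _ _).trans ?_
      have := h1 t f c
      omega
  unfold form
  refine totalDegree_finsetSum_le fun i _ => ?_
  refine (totalDegree_mul _ _).trans (add_le_add ?_ (h2 _ _ _))
  exact (totalDegree_X_pow _ _).le

/-! ### The main lemma -/

theorem exists_top (h : k ≤ n) (p : MvPolynomial (Fin k) ℤ) (σ : ℝ) (hσ : σ ≠ 0)
    (hσp : ∃ x : Fin k → ℝ, σ * aeval x p < σ * aeval (0 : Fin k → ℝ) p) (hσ2 : σ * σ = 1)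
    {D : ℕ} (hd : p.totalDegree < D) (Q : MvPolynomial (Fin n) ℤ)
    (hQ : ∀ (a : ℝ) (x : Fin n → ℝ), aeval (a • x) Q = a ^ D * aeval x Q)
    (hQ0 : ∀ x : Fin n → ℝ, 0 ≤ aeval x Q)
    (A : Matrix (Fin n) (Fin n) ℝ) (b : Fin n → ℝ)
    (hA : ∀ x : Fin n → ℝ, aeval (fun i => x (Fin.castLE h i)) p =
      aeval (fun i => (A.mulVec x + b) (Fin.castLE h i)) p + σ * aeval (A.mulVec x + b) Q) :
    ∃ u : Fin n → ℝ, aeval u Q = 0 ∧ ∃ i : Fin k, u (Fin.castLE h i) ≠ 0 := by
  by_contra hno
  push Not at hno
  by_cases hc : ∀ (i : Fin k) (j : Fin n), A (Fin.castLE h i) j = 0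
  · -- the first `k` coordinates of `A x + b` are constant
    have h2 : ∀ (x : Fin n → ℝ) (i : Fin k),
        (A.mulVec x + b) (Fin.castLE h i) = b (Fin.castLE h i) := by
      intro x i
      have : A.mulVec x (Fin.castLE h i) = 0 := by
        simp [Matrix.mulVec, dotProduct, hc i]
      rw [Pi.add_apply, this, zero_add]
    simp only [h2] at hA
    have h3 : aeval (A.mulVec b + b) Q = 0 := by
      have h4 := hA b
      have h5 : σ * aeval (A.mulVec b + b) Q = 0 := by linarith
      rcases mul_eq_zero.1 h5 with h6 | h6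
      · exact absurd h6 hσ
      · exact h6
    have h4 : ∀ i : Fin k, b (Fin.castLE h i) = 0 := fun i => by
      rw [← h2 b i]
      exact hno _ h3 i
    simp only [h4] at hA
    obtain ⟨x, hx⟩ := hσp
    have h5 := hA (fun i : Fin n => if hi : (i : ℕ) < k then x ⟨i, hi⟩ else 0)
    have h6 : (fun i : Fin k => (fun i : Fin n => if hi : (i : ℕ) < k then x ⟨i, hi⟩ else 0)
        (Fin.castLE h i)) = x := by
      ext i
      simp
    rw [h6] at h5
    have h7 := hQ0 (A.mulVec (fun i : Fin n => if hi : (i : ℕ) < k then x ⟨i, hi⟩ else 0) + b)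
    have h8 : (fun _ : Fin k => (0 : ℝ)) = 0 := rfl
    rw [h8] at h5
    rw [h5, mul_add, ← mul_assoc, hσ2, one_mul] at hx
    linarith
  · push Not at hc
    obtain ⟨i₀, j, hij⟩ := hc
    set u : Fin n → ℝ := fun i => A i j with hu
    set L : Fin n → Polynomial ℝ := fun i =>
      Polynomial.C (A i j) * Polynomial.X + Polynomial.C (b i) with hL
    set L' : Fin n → Polynomial ℝ := fun i =>
      Polynomial.C (b i) * Polynomial.X + Polynomial.C (A i j) with hL'
    set P₁ : Polynomial ℝ := aeval (fun i : Fin k => if Fin.castLE h i = j then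
      (Polynomial.X : Polynomial ℝ) else 0) p with hP₁
    set P₂ : Polynomial ℝ := aeval (fun i : Fin k => L (Fin.castLE h i)) p with hP₂
    set H : Polynomial ℝ := aeval L' Q with hH
    have hLt : ∀ t : ℝ, (fun i => (L i).eval t) = A.mulVec (Pi.single j t) + b := by
      intro t
      ext i
      simp only [hL, Polynomial.eval_add, Polynomial.eval_mul, Polynomial.eval_C,
        Polynomial.eval_X, Pi.add_apply, Matrix.mulVec_single, Pi.smul_apply,
        Matrix.col_apply, MulOpposite.smul_eq_mul_unop, MulOpposite.unop_op]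
    have hid : ∀ t : ℝ, (P₁ - P₂).eval t = σ * aeval (A.mulVec (Pi.single j t) + b) Q := by
      intro t
      rw [Polynomial.eval_sub, hP₁, hP₂, eval_aeval, eval_aeval]
      have h1 := hA (Pi.single j t)
      have h2 : (fun i : Fin k => (Polynomial.eval t (if Fin.castLE h i = j then
          (Polynomial.X : Polynomial ℝ) else 0))) =
          fun i => (Pi.single j t : Fin n → ℝ) (Fin.castLE h i) := by
        ext i
        by_cases hi : Fin.castLE h i = j
        · rw [if_pos hi, hi, Polynomial.eval_X, Pi.single_eq_same]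
        · rw [if_neg hi, Polynomial.eval_zero, Pi.single_eq_of_ne hi]
      have h3 : (fun i : Fin k => Polynomial.eval t (L (Fin.castLE h i))) =
          fun i => (A.mulVec (Pi.single j t) + b) (Fin.castLE h i) := by
        ext i
        exact congrFun (hLt t) (Fin.castLE h i)
      rw [h2, h3]
      linarith
    have d1 : P₁.natDegree ≤ p.totalDegree := by
      refine natDegree_aeval_le _ (fun i => ?_) p
      split_ifs
      · exact Polynomial.natDegree_X_le
      · simp
    have d2 : P₂.natDegree ≤ p.totalDegree :=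
      natDegree_aeval_le _ (fun i => natDegree_lin _ _) p
    have d3 : (P₁ - P₂).natDegree < D :=
      ((Polynomial.natDegree_sub_le _ _).trans (max_le d1 d2)).trans_lt hd
    have key : ∀ s : ℝ, s ≠ 0 → (Polynomial.reflect D (P₁ - P₂)).eval s =
        (Polynomial.C σ * H).eval s := by
      intro s hs
      haveI : Invertible s⁻¹ := invertibleOfNonzero (inv_ne_zero hs)
      have h1 := Polynomial.eval₂_reflect_mul_pow (RingHom.id ℝ) s⁻¹ D (P₁ - P₂) d3.le
      rw [invOf_eq_inv, inv_inv] at h1
      have h2 : (Polynomial.reflect D (P₁ - P₂)).eval s * s⁻¹ ^ D = (P₁ - P₂).eval s⁻¹ := h1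
      have h3 : (Polynomial.reflect D (P₁ - P₂)).eval s = s ^ D * (P₁ - P₂).eval s⁻¹ := by
        rw [← h2, mul_comm (Polynomial.eval _ _), ← mul_assoc, ← mul_pow, mul_inv_cancel₀ hs,
          one_pow, one_mul]
      rw [h3, hid, Polynomial.eval_mul, Polynomial.eval_C, hH, eval_aeval]
      have h4 : (fun i => Polynomial.eval s (L' i)) = s • (A.mulVec (Pi.single j s⁻¹) + b) := by
        rw [← hLt]
        ext i
        simp only [hL', hL, Polynomial.eval_add, Polynomial.eval_mul, Polynomial.eval_C,
          Polynomial.eval_X, Pi.smul_apply, smul_eq_mul]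
        field_simp
        ring
      rw [h4, hQ]
      ring
    have h5 : Polynomial.reflect D (P₁ - P₂) = Polynomial.C σ * H := by
      refine Polynomial.eq_of_infinite_eval_eq _ _ ?_
      refine Set.Infinite.mono (s := {s : ℝ | s ≠ 0}) (fun s hs => key s hs) ?_
      exact (Set.finite_singleton (0 : ℝ)).infinite_compl
    have h6 : (Polynomial.C σ * H).coeff 0 = 0 := by
      rw [← h5, Polynomial.coeff_reflect, Polynomial.revAt_le (Nat.zero_le D), Nat.sub_zero]
      exact Polynomial.coeff_eq_zero_of_natDegree_lt d3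
    have h7 : H.eval 0 = 0 := by
      rw [← Polynomial.coeff_zero_eq_eval_zero]
      rw [Polynomial.coeff_C_mul] at h6
      rcases mul_eq_zero.1 h6 with h8 | h8
      · exact absurd h8 hσ
      · exact h8
    have h8 : aeval u Q = 0 := by
      rw [hH, eval_aeval] at h7
      have : (fun i => Polynomial.eval 0 (L' i)) = u := by
        ext i
        simp [hL', hu]
      rwa [this] at h7
    exact hij (hno u h8 i₀)

end Pool.Agent.NPC.H768AP
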