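import Pool.Agent.H612.AffMain
import Pool.Agent.ER.Bounded
import Pool.Agent.Run7.h768.AP.Sem

/-!
# The reduction for a fixed polynomial `p`
-/

namespace Pool.Agent.NPC.H768AP

open ER H612 MvPolynomial Pool.Agent.H768AP

/-! ### Raw polynomials -/

/-- A raw polynomial: a list of signed products of variables. -/
abbrev Raw : Type := List (Bool × List ℕ)

/-- All variables of a raw polynomial are smaller than `n`. -/
def Lt (n : ℕ) (R : Raw) : Prop := ∀ t ∈ R, ∀ i ∈ t.2, i < n

/-- Product of raw polynomials. -/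
def mulRaw (a b : Raw) : Raw := a.flatMap fun p => b.map fun q => (xor p.1 q.1, p.2 ++ q.2)

theorem rawEval_nil (y : ℕ → ℝ) : rawEval y [] = 0 := by simp [rawEval]

theorem rawEval_cons (y : ℕ → ℝ) (t : Bool × List ℕ) (R : Raw) :
    rawEval y (t :: R) = (sgn t.1 : ℝ) * (t.2.map y).prod + rawEval y R := by
  simp [rawEval]

theorem sgn_xor (a b : Bool) : (sgn (xor a b) : ℝ) = (sgn a : ℝ) * (sgn b : ℝ) := by
  cases a <;> cases b <;> simp [sgn]

theorem rawEval_mulRaw (y : ℕ → ℝ) (a b : Raw) :
    rawEval y (mulRaw a b) = rawEval y a * rawEval y b := by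
  have h1 : ∀ (p : Bool × List ℕ) (b : Raw),
      rawEval y (b.map fun q => (xor p.1 q.1, p.2 ++ q.2)) =
        ((sgn p.1 : ℝ) * (p.2.map y).prod) * rawEval y b := by
    intro p b
    induction b with
    | nil => simp [rawEval_nil]
    | cons q b ih =>
      rw [List.map_cons, rawEval_cons, ih, rawEval_cons, List.map_append, List.prod_append,
        sgn_xor]
      ring
  unfold mulRaw
  induction a with
  | nil => simp [rawEval_nil]
  | cons p a ih => rw [List.flatMap_cons, rawEval_append, ih, h1, rawEval_cons]; ring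

theorem Lt.append {n : ℕ} {a b : Raw} (ha : Lt n a) (hb : Lt n b) : Lt n (a ++ b) := by
  intro t ht
  rcases List.mem_append.1 ht with h | h
  · exact ha t h
  · exact hb t h

theorem Lt.mulRaw {n : ℕ} {a b : Raw} (ha : Lt n a) (hb : Lt n b) :
    Lt n (Pool.Agent.NPC.H768AP.mulRaw a b) := by
  intro t ht i hi
  unfold Pool.Agent.NPC.H768AP.mulRaw at ht
  rw [List.mem_flatMap] at ht
  obtain ⟨p, hp, ht⟩ := ht
  rw [List.mem_map] at ht
  obtain ⟨q, hq, rfl⟩ := ht
  rcases List.mem_append.1 hi with h | h
  · exact ha p hp i h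
  · exact hb q hq i h

theorem Lt.mono {m n : ℕ} (h : m ≤ n) {a : Raw} (ha : Lt m a) : Lt n a :=
  fun t ht i hi => (ha t ht i hi).trans_le h

/-- Every integer polynomial has a raw form. -/
theorem exists_raw {k : ℕ} (p : MvPolynomial (Fin k) ℤ) :
    ∃ R : Raw, Lt k R ∧ ∀ y : ℕ → ℝ, rawEval y R = aeval (fun i : Fin k => y i) p := by
  induction p using MvPolynomial.induction_on with
  | C a =>
    refine ⟨List.replicate a.natAbs (decide (a < 0), []), ?_, fun y => ?_⟩
    · intro t ht i hi
      rw [List.eq_of_mem_replicate ht] at hi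
      simp at hi
    · have h : ∀ m : ℕ, rawEval y (List.replicate m (decide (a < 0), [])) =
          (m : ℝ) * (sgn (decide (a < 0)) : ℝ) := by
        intro m
        induction m with
        | zero => simp [rawEval_nil]
        | succ m ih =>
          rw [List.replicate_succ, rawEval_cons, ih]
          push_cast
          simp
          ring
      rw [h, algHom_C]
      by_cases ha : a < 0
      · have : (a.natAbs : ℝ) = -(a : ℝ) := by
          have h1 : (a.natAbs : ℤ) = -a := by omega
          have h2 : ((a.natAbs : ℤ) : ℝ) = ((-a : ℤ) : ℝ) := by rw [h1]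
          push_cast at h2
          simpa using h2
        simp [ha, sgn, this]
      · have : (a.natAbs : ℝ) = (a : ℝ) := by
          have h1 : (a.natAbs : ℤ) = a := by omega
          have h2 : ((a.natAbs : ℤ) : ℝ) = ((a : ℤ) : ℝ) := by rw [h1]
          simpa using h2
        simp [ha, sgn, this]
  | add p q hp hq =>
    obtain ⟨R, h1, h2⟩ := hp
    obtain ⟨R', h1', h2'⟩ := hq
    exact ⟨R ++ R', h1.append h1', fun y => by rw [rawEval_append, h2, h2', map_add]⟩
  | mul_X p i hp =>
    obtain ⟨R, h1, h2⟩ := hp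
    refine ⟨mulRaw R [(false, [(i : ℕ)])], h1.mulRaw ?_, fun y => ?_⟩
    · intro t ht j hj
      rw [List.mem_singleton] at ht
      subst ht
      rw [List.mem_singleton] at hj
      subst hj
      exact i.2
    · rw [rawEval_mulRaw, h2, map_mul, aeval_X, rawEval_cons, rawEval_nil]
      simp [sgn]

/-- Raw form of `1 + ∑ yᵢ^e`. -/
def multRaw (k e : ℕ) : Raw := (false, []) :: (List.range k).map fun i => (false, List.replicate e i)

theorem rawEval_multRaw (k e : ℕ) (y : ℕ → ℝ) :
    rawEval y (multRaw k e) = 1 + ∑ i : Fin k, y i ^ e := by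
  unfold multRaw
  rw [rawEval_cons]
  have h : ∀ l : List ℕ, rawEval y (l.map fun i => (false, List.replicate e i)) =
      (l.map fun i => y i ^ e).sum := by
    intro l
    induction l with
    | nil => simp [rawEval_nil]
    | cons a l ih =>
      rw [List.map_cons, rawEval_cons, ih, List.map_cons, List.sum_cons]
      simp [sgn]
  rw [h, ← List.sum_ofFn, List.ofFn_eq_map]
  have h2 : (List.finRange k).map (fun i : Fin k => y i ^ e) =
      (List.range k).map fun i => y i ^ e := by
    rw [← List.map_coe_finRange_eq_range, List.map_map]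
    rfl
  rw [h2]
  simp [sgn]

theorem multRaw_lt (k e : ℕ) : Lt k (multRaw k e) := by
  intro t ht i hi
  unfold multRaw at ht
  rcases List.mem_cons.1 ht with h | h
  · subst h; simp at hi
  · rw [List.mem_map] at h
    obtain ⟨j, hj, rfl⟩ := h
    rw [List.eq_of_mem_replicate hi]
    exact List.mem_range.1 hj

/-- Raw form of a constraint; the variables of the system are numbered from `k` on. -/
def kraw (k : ℕ) (V : List ℕ) : Con → Raw
  | .one i => [(false, [k + V.idxOf i]), (true, [])]
  | .add i j l => [(false, [k + V.idxOf i]), (false, [k + V.idxOf j]), (true, [k + V.idxOf l])]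
  | .mul i j l => [(false, [k + V.idxOf i, k + V.idxOf j]), (true, [k + V.idxOf l])]

/-- Raw form of the sum of the squares of the constraints. -/
def sumRaw (k : ℕ) (V : List ℕ) (S : List Con) : Raw :=
  S.flatMap fun c => mulRaw (kraw k V c) (kraw k V c)

/-- The number of variables. -/
def nv (k : ℕ) (S : List Con) : ℕ := k + ((varsOf S).length + 1)

/-- The numbering of the variables of the system. -/
def num (k : ℕ) (S : List Con) (i : ℕ) : Fin (nv k S) :=
  ⟨k + (varsOf S).idxOf i, by
    have := List.idxOf_le_length (l := varsOf S) (a := i)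
    unfold nv
    omega⟩

theorem xt_num {k : ℕ} {S : List Con} (x : Fin (nv k S) → ℝ) (i : ℕ) :
    xt x (k + (varsOf S).idxOf i) = x (num k S i) := by
  have h : k + (varsOf S).idxOf i < nv k S := (num k S i).2
  unfold xt
  rw [dif_pos h]
  rfl

theorem kraw_lt (k : ℕ) (S : List Con) (c : Con) : Lt (nv k S) (kraw k (varsOf S) c) := by
  have h : ∀ i, k + (varsOf S).idxOf i < nv k S := fun i => (num k S i).2
  cases c <;> simp [Lt, kraw, h]

theorem sumRaw_lt (k : ℕ) (S : List Con) : Lt (nv k S) (sumRaw k (varsOf S) S) := by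
  intro t ht
  unfold sumRaw at ht
  rw [List.mem_flatMap] at ht
  obtain ⟨c, _, ht⟩ := ht
  exact (kraw_lt k S c).mulRaw (kraw_lt k S c) t ht

theorem rawEval_kraw (k : ℕ) (S : List Con) (c : Con) (x : Fin (nv k S) → ℝ) :
    rawEval (xt x) (kraw k (varsOf S) c) = aeval x (cpoly (num k S) c) := by
  cases c with
  | one i =>
    simp only [kraw, rawEval_cons, rawEval_nil, cpoly, map_sub, aeval_X, List.map_cons,
      List.map_nil, List.prod_cons, List.prod_nil, xt_num, aeval_C]
    simp [sgn]
    ring
  | add i j l =>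
    simp only [kraw, rawEval_cons, rawEval_nil, cpoly, map_sub, map_add, aeval_X, List.map_cons,
      List.map_nil, List.prod_cons, List.prod_nil, xt_num]
    simp [sgn]
    ring
  | mul i j l =>
    simp only [kraw, rawEval_cons, rawEval_nil, cpoly, map_sub, map_mul, aeval_X, List.map_cons,
      List.map_nil, List.prod_cons, List.prod_nil, xt_num]
    simp [sgn]
    ring

theorem rawEval_sumRaw (k : ℕ) (S : List Con) (x : Fin (nv k S) → ℝ) :
    rawEval (xt x) (sumRaw k (varsOf S) S) = aeval x (spoly (num k S) S) := by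
  have h : ∀ T : List Con, rawEval (xt x) (sumRaw k (varsOf S) T) =
      aeval x (spoly (num k S) T) := by
    intro T
    induction T with
    | nil => simp [sumRaw, spoly, rawEval_nil]
    | cons c T ih =>
      have e : sumRaw k (varsOf S) (c :: T) =
          mulRaw (kraw k (varsOf S) c) (kraw k (varsOf S) c) ++ sumRaw k (varsOf S) T := by
        simp [sumRaw]
      rw [e, rawEval_append, rawEval_mulRaw, ih, rawEval_kraw]
      simp [spoly]
  exact h S

/-! ### The instance -/

/-- The raw form of `g`. -/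
def gRaw (k e : ℕ) (R : Raw) (S : List Con) : Raw :=
  R ++ mulRaw (multRaw k e) (sumRaw k (varsOf S) S)

/-- The instance of a system. -/
def inst (k e : ℕ) (R : Raw) (S : List Con) : AffInst :=
  (nv k S, collect (nv k S) R, collect (nv k S) (gRaw k e R S))

theorem ext_aeval {n : ℕ} {P P' : MvPolynomial (Fin n) ℤ}
    (h : ∀ x : Fin n → ℝ, aeval x P = aeval x P') : P = P' := by
  have h1 : MvPolynomial.map (Int.castRingHom ℝ) P = MvPolynomial.map (Int.castRingHom ℝ) P' := by
    refine MvPolynomial.funext fun x => ?_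
    have h2 := h x
    rw [aeval_def, aeval_def] at h2
    rw [eval_map, eval_map]
    exact h2
  exact MvPolynomial.map_injective _ Int.cast_injective h1

theorem le_nv (k : ℕ) (S : List Con) : k ≤ nv k S := Nat.le_add_right _ _

theorem toPoly_f {k : ℕ} (p : MvPolynomial (Fin k) ℤ) {R : Raw} (hR : Lt k R)
    (hRp : ∀ y : ℕ → ℝ, rawEval y R = aeval (fun i : Fin k => y i) p) (S : List Con) :
    (collect (nv k S) R).toPoly (nv k S) = rename (Fin.castLE (le_nv k S)) p := by
  refine ext_aeval fun x => ?_
  rw [aeval_collect _ (hR.mono (le_nv k S)), hRp, aeval_rename]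
  congr 2
  ext i
  exact xt_fin x (Fin.castLE (le_nv k S) i)

theorem toPoly_g {k : ℕ} (p : MvPolynomial (Fin k) ℤ) {R : Raw} (hR : Lt k R)
    (hRp : ∀ y : ℕ → ℝ, rawEval y R = aeval (fun i : Fin k => y i) p) (e : ℕ) (S : List Con) :
    (collect (nv k S) (gRaw k e R S)).toPoly (nv k S) =
      target (le_nv k S) p e (spoly (num k S) S) := by
  refine ext_aeval fun x => ?_
  have hx : ∀ i : Fin k, xt x (i : ℕ) = x (Fin.castLE (le_nv k S) i) := fun i =>
    xt_fin x (Fin.castLE (le_nv k S) i)
  unfold gRaw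
  rw [aeval_collect _ ((hR.mono (le_nv k S)).append
    (((multRaw_lt k e).mono (le_nv k S)).mulRaw (sumRaw_lt k S))), target_aeval]
  rw [rawEval_append, rawEval_mulRaw, hRp, rawEval_multRaw, rawEval_sumRaw, mult_aeval]
  simp only [hx]

theorem spoly_deg4 {n : ℕ} (f : ℕ → Fin n) (S : List Con) : (spoly f S).totalDegree ≤ 4 := by
  induction S with
  | nil => simp [spoly]
  | cons c S ih =>
    refine (MvPolynomial.totalDegree_add _ _).trans (max_le ?_ ih)
    refine (MvPolynomial.totalDegree_mul _ _).trans ?_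
    have := cpoly_deg f c
    omega

theorem target_deg {n k : ℕ} (h : k ≤ n) (p : MvPolynomial (Fin k) ℤ) (e : ℕ)
    (Q : MvPolynomial (Fin n) ℤ) (hQ : Q.totalDegree ≤ 4) {D : ℕ} (hp : p.totalDegree ≤ D)
    (he : e + 4 ≤ D) : (target h p e Q).totalDegree ≤ D := by
  unfold target
  refine (totalDegree_add _ _).trans (max_le ?_ ?_)
  · exact (totalDegree_rename_le _ _).trans hp
  · refine (totalDegree_mul _ _).trans ?_
    have h1 : (mult h e).totalDegree ≤ e := by
      unfold mult
      refine (totalDegree_add _ _).trans (max_le (by simp) ?_)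
      refine totalDegree_finsetSum_le fun i _ => ?_
      exact (totalDegree_X_pow _ _).le
    omega

theorem aff_of_sat {k : ℕ} (p : MvPolynomial (Fin k) ℤ) {R : Raw} (hR : Lt k R)
    (hRp : ∀ y : ℕ → ℝ, rawEval y R = aeval (fun i : Fin k => y i) p) (e : ℕ) {S : List Con}
    (hS : Sat S) : AffineProjection (inst k e R S) := by
  have hf := toPoly_f p hR hRp S
  have hg := toPoly_g p hR hRp e S
  unfold AffineProjection inst
  simp only
  obtain ⟨v, hv⟩ := hS
  refine ⟨collect_valid _ _, collect_valid _ _, ?_⟩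
  rw [hf, hg]
  refine ⟨Matrix.of fun i j => if i = j ∧ (i : ℕ) < k then 1 else 0,
    fun i => if (i : ℕ) < k then 0 else v ((varsOf S).getD ((i : ℕ) - k) 0), fun x => ?_⟩
  have hL : ∀ i : Fin (nv k S), ((Matrix.of fun i j : Fin (nv k S) =>
      if i = j ∧ (i : ℕ) < k then (1 : ℝ) else 0).mulVec x +
      fun i : Fin (nv k S) => if (i : ℕ) < k then 0 else v ((varsOf S).getD ((i : ℕ) - k) 0)) i =
      if (i : ℕ) < k then x i else v ((varsOf S).getD ((i : ℕ) - k) 0) := by
    intro i
    rw [Pi.add_apply]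
    by_cases hi : (i : ℕ) < k
    · simp [Matrix.mulVec, dotProduct, hi]
    · simp [Matrix.mulVec, dotProduct, hi]
  rw [target_aeval, aeval_rename]
  have h0 : aeval ((Matrix.of fun i j : Fin (nv k S) =>
      if i = j ∧ (i : ℕ) < k then (1 : ℝ) else 0).mulVec x +
      fun i : Fin (nv k S) => if (i : ℕ) < k then 0 else v ((varsOf S).getD ((i : ℕ) - k) 0))
      (spoly (num k S) S) = 0 := by
    rw [spoly_eval]
    intro c hc
    refine (Con.holds_congr fun i hi => ?_).1 (hv c hc)
    have hm : i ∈ varsOf S := List.mem_flatMap.2 ⟨c, hc, hi⟩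
    have hlt : (varsOf S).idxOf i < (varsOf S).length := List.idxOf_lt_length_iff.2 hm
    rw [hL]
    have h1 : ¬ ((num k S i : Fin (nv k S)) : ℕ) < k := by simp [num]
    rw [if_neg h1]
    have h2 : ((num k S i : Fin (nv k S)) : ℕ) - k = (varsOf S).idxOf i := by simp [num]
    rw [h2, List.getD_eq_getElem?_getD, List.getElem?_eq_getElem hlt]
    simp
  rw [h0, mul_zero, add_zero]
  congr 2
  ext i
  rw [hL]
  have h1 : ((Fin.castLE (le_nv k S) i : Fin (nv k S)) : ℕ) < k := i.2
  rw [if_pos h1]
  rfl

/-- The converse for constant `p` (and exponent `0`). -/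
theorem sat_of_aff_const {k : ℕ} (p : MvPolynomial (Fin k) ℤ) {R : Raw} (hR : Lt k R)
    (hRp : ∀ y : ℕ → ℝ, rawEval y R = aeval (fun i : Fin k => y i) p)
    (hp : ∀ x y : Fin k → ℝ, aeval x p = aeval y p) {S : List Con}
    (h : AffineProjection (inst k 0 R S)) : Sat S := by
  have hf := toPoly_f p hR hRp S
  have hg := toPoly_g p hR hRp 0 S
  unfold AffineProjection inst at h
  obtain ⟨-, -, A, b, h⟩ := h
  simp only at h
  rw [hf, hg] at h
  have h1 := h 0
  rw [aeval_rename, target_aeval] at h1
  have h2 := hp ((0 : Fin (nv k S) → ℝ) ∘ Fin.castLE (le_nv k S))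
    (fun i => (A.mulVec 0 + b) (Fin.castLE (le_nv k S) i))
  have h3 := (mult_pos (le_nv k S) (e := 0) (by simp) (A.mulVec 0 + b)).ne'
  have h4 : aeval (A.mulVec 0 + b) (mult (le_nv k S) 0) *
      aeval (A.mulVec 0 + b) (spoly (num k S) S) = 0 := by linarith
  rcases mul_eq_zero.1 h4 with h5 | h5
  · exact absurd h5 h3
  · exact ⟨_, (spoly_eval _ _ _).1 h5⟩

/-! ### Polynomial time -/

section

variable {α : Type} [TEnc α]

theorem poly_mulRaw {a b : α → Raw} (ha : Poly a) (hb : Poly b) :
    Poly (fun x => mulRaw (a x) (b x)) := by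
  unfold mulRaw
  refine Poly.flatMap (F := fun x p => (b x).map fun q => (xor p.1 q.1, p.2 ++ q.2)) ha ?_
  refine Poly.map
    (F := fun (x : α × Bool × List ℕ) q => (xor x.2.1 q.1, x.2.2 ++ q.2))
    (hb.comp (Poly.fst Poly.id)) ?_
  exact Poly.pair (Poly.xor (Poly.fst (Poly.snd (Poly.fst Poly.id)))
    (Poly.fst (Poly.snd Poly.id)))
    (Poly.append (Poly.snd (Poly.snd (Poly.fst Poly.id))) (Poly.snd (Poly.snd Poly.id)))

theorem kraw_eq (k : ℕ) (V : List ℕ) (c : Con) : kraw k V c =
    if c.code.1 = 0 then [(false, [k + V.idxOf c.code.2.1]), (true, [])]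
    else if c.code.1 = 1 then [(false, [k + V.idxOf c.code.2.1]),
      (false, [k + V.idxOf c.code.2.2.1]), (true, [k + V.idxOf c.code.2.2.2])]
    else [(false, [k + V.idxOf c.code.2.1, k + V.idxOf c.code.2.2.1]),
      (true, [k + V.idxOf c.code.2.2.2])] := by
  cases c <;> rfl

theorem poly_kraw (k : ℕ) {V : α → List ℕ} {c : α → Con} (hV : Poly V) (hc : Poly c) :
    Poly (fun a => kraw k (V a) (c a)) := by
  simp only [kraw_eq]
  have h0 := poly_con_code hc
  have i1 := Poly.add (Poly.const k) (poly_idxOf hV (Poly.fst (Poly.snd h0)))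
  have i2 := Poly.add (Poly.const k) (poly_idxOf hV (Poly.fst (Poly.snd (Poly.snd h0))))
  have i3 := Poly.add (Poly.const k) (poly_idxOf hV (Poly.snd (Poly.snd (Poly.snd h0))))
  have l1 := Poly.cons i1 (Poly.const [])
  have l2 := Poly.cons i2 (Poly.const [])
  have l3 := Poly.cons i3 (Poly.const [])
  refine Poly.ite (Poly.decide_eq (Poly.fst h0) (Poly.const 0))
    (Poly.cons (Poly.pair (Poly.const _) l1) (Poly.const _))
    (Poly.ite (Poly.decide_eq (Poly.fst h0) (Poly.const 1))
      (Poly.cons (Poly.pair (Poly.const _) l1) (Poly.cons (Poly.pair (Poly.const _) l2)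
        (Poly.cons (Poly.pair (Poly.const _) l3) (Poly.const []))))
      (Poly.cons (Poly.pair (Poly.const _) (Poly.cons i1 l2))
        (Poly.cons (Poly.pair (Poly.const _) l3) (Poly.const []))))

theorem poly_sumRaw (k : ℕ) {V : α → List ℕ} {S : α → List Con} (hV : Poly V) (hS : Poly S) :
    Poly (fun a => sumRaw k (V a) (S a)) := by
  unfold sumRaw
  refine Poly.flatMap (F := fun a c => mulRaw (kraw k (V a) c) (kraw k (V a) c)) hS ?_
  have h := poly_kraw k (hV.comp (Poly.fst (Poly.id (α := α × Con)))) (Poly.snd Poly.id)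
  exact poly_mulRaw h h

theorem upoly_nv (k : ℕ) {S : α → List Con} (hS : Poly S) : UPoly (fun a => nv k (S a)) :=
  UPoly.add (UPoly.const k) (UPoly.add (UPoly.length (poly_varsOf hS)) (UPoly.const 1))

theorem poly_inst (k e : ℕ) (R : Raw) {S : α → List Con} (hS : Poly S) :
    Poly (fun a => inst k e R (S a)) := by
  unfold inst
  refine Poly.pair (UPoly.toPoly (upoly_nv k hS)) (Poly.pair
    (poly_collect (upoly_nv k hS) (Poly.const R)) (poly_collect (upoly_nv k hS) ?_))
  exact Poly.append (Poly.const R) (poly_mulRaw (Poly.const _) (poly_sumRaw k (poly_varsOf hS) hS))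

end

end Pool.Agent.NPC.H768AP
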