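import Pool.Agent.Run7.h768.AP.Defs
import Pool.Agent.Run7.h768.AP.Raw
import Pool.Agent.Run7.h768.AP.Hom

/-!
# The reduction for a fixed nonconstant polynomial: linear and affine projections at once
-/

namespace Pool.Agent.NPC.H768AP

open ER H612 MvPolynomial Pool.Agent.H768AP

/-! ### Numbering of the variables -/

/-- The size of a block of variables. -/
def bs (S : List Con) : ℕ := (varsOf S).length + 1

/-- The number of variables: `k` and `k` blocks. -/
def nw (k : ℕ) (S : List Con) : ℕ := k + k * bs S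

theorem le_nw (k : ℕ) (S : List Con) : k ≤ nw k S := Nat.le_add_right _ _

theorem num_lt {k : ℕ} {S : List Con} {i : ℕ} (hi : i < k) (a : ℕ) :
    k + i * bs S + (varsOf S).idxOf a < nw k S := by
  have h1 := List.idxOf_le_length (l := varsOf S) (a := a)
  have h2 : (i + 1) * bs S ≤ k * bs S := Nat.mul_le_mul_right _ hi
  have h3 : (varsOf S).idxOf a < bs S := by unfold bs; omega
  unfold nw
  rw [add_mul, one_mul] at h2
  omega

/-- The number of the variable `a` of the system in the block `i`. -/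
def numB (k : ℕ) (S : List Con) (i : Fin k) (a : ℕ) : Fin (nw k S) :=
  ⟨k + i * bs S + (varsOf S).idxOf a, num_lt i.2 a⟩

/-! ### Raw forms -/

/-- Raw form of a homogenised constraint: `t` is the homogenising variable and the variables of
the system are numbered from `o` on. -/
def hraw (t o : ℕ) (V : List ℕ) : Con → Raw
  | .one i => [(false, [t, o + V.idxOf i]), (true, [t, t])]
  | .add i j l => [(false, [t, o + V.idxOf i]), (false, [t, o + V.idxOf j]),
      (true, [t, o + V.idxOf l])]
  | .mul i j l => [(false, [o + V.idxOf i, o + V.idxOf j]), (true, [t, o + V.idxOf l])]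

/-- Raw form of a block. -/
def blockRaw (k s : ℕ) (S : List Con) (i : ℕ) : Raw :=
  mulRaw [(false, (List.range (2 * s)).map fun _ => i)]
    (S.flatMap fun c => mulRaw (hraw i (k + i * bs S) (varsOf S) c)
      (hraw i (k + i * bs S) (varsOf S) c))

/-- Raw form of the form. -/
def formRaw (k s : ℕ) (S : List Con) : Raw := (List.range k).flatMap (blockRaw k s S)

theorem hraw_lt {k : ℕ} {S : List Con} {i : ℕ} (hi : i < k) (c : Con) :
    Lt (nw k S) (hraw i (k + i * bs S) (varsOf S) c) := by
  have h : ∀ a, k + i * bs S + (varsOf S).idxOf a < nw k S := fun a => num_lt hi a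
  have h0 : i < nw k S := hi.trans_le (le_nw k S)
  cases c <;> simp [Lt, hraw, h, h0]

theorem flat_lt {n : ℕ} {β : Type} (l : List β) (F : β → Raw) (h : ∀ b ∈ l, Lt n (F b)) :
    Lt n (l.flatMap F) := by
  intro t ht
  rw [List.mem_flatMap] at ht
  obtain ⟨b, hb, ht⟩ := ht
  exact h b hb t ht

theorem blockRaw_lt {k : ℕ} (s : ℕ) {S : List Con} {i : ℕ} (hi : i < k) :
    Lt (nw k S) (blockRaw k s S i) := by
  unfold blockRaw
  refine Lt.mulRaw ?_ (flat_lt _ _ fun c _ => (hraw_lt hi c).mulRaw (hraw_lt hi c))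
  intro t ht j hj
  rw [List.mem_singleton] at ht
  subst ht
  rw [List.mem_map] at hj
  obtain ⟨_, _, rfl⟩ := hj
  exact hi.trans_le (le_nw k S)

theorem formRaw_lt (k s : ℕ) (S : List Con) : Lt (nw k S) (formRaw k s S) :=
  flat_lt _ _ fun _ hi => blockRaw_lt s (List.mem_range.1 hi)

theorem xt_numB {k : ℕ} {S : List Con} (x : Fin (nw k S) → ℝ) (i : Fin k) (a : ℕ) :
    xt x (k + (i : ℕ) * bs S + (varsOf S).idxOf a) = x (numB k S i a) := by
  unfold xt
  rw [dif_pos (num_lt i.2 a)]
  rfl

theorem xt_y {k : ℕ} {S : List Con} (x : Fin (nw k S) → ℝ) (i : Fin k) :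
    xt x (i : ℕ) = x (Fin.castLE (le_nw k S) i) := xt_fin x (Fin.castLE (le_nw k S) i)

theorem rawEval_hraw {k : ℕ} {S : List Con} (i : Fin k) (c : Con) (x : Fin (nw k S) → ℝ) :
    rawEval (xt x) (hraw i (k + (i : ℕ) * bs S) (varsOf S) c) =
      aeval x (hpoly (Fin.castLE (le_nw k S) i) (numB k S i) c) := by
  cases c with
  | one a =>
    simp only [hraw, rawEval_cons, rawEval_nil, hpoly, map_sub, map_mul, aeval_X, List.map_cons,
      List.map_nil, List.prod_cons, List.prod_nil, xt_numB, xt_y]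
    simp [sgn]
    ring
  | add a b d =>
    simp only [hraw, rawEval_cons, rawEval_nil, hpoly, map_sub, map_add, map_mul, aeval_X,
      List.map_cons, List.map_nil, List.prod_cons, List.prod_nil, xt_numB, xt_y]
    simp [sgn]
    ring
  | mul a b d =>
    simp only [hraw, rawEval_cons, rawEval_nil, hpoly, map_sub, map_mul, aeval_X, List.map_cons,
      List.map_nil, List.prod_cons, List.prod_nil, xt_numB, xt_y]
    simp [sgn]
    ring

theorem rawEval_block {k : ℕ} (s : ℕ) {S : List Con} (i : Fin k) (x : Fin (nw k S) → ℝ) :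
    rawEval (xt x) (blockRaw k s S i) = x (Fin.castLE (le_nw k S) i) ^ (2 * s) *
      aeval x (hsum (Fin.castLE (le_nw k S) i) (numB k S i) S) := by
  have h : ∀ T : List Con, rawEval (xt x) (T.flatMap fun c =>
      mulRaw (hraw i (k + (i : ℕ) * bs S) (varsOf S) c)
        (hraw i (k + (i : ℕ) * bs S) (varsOf S) c)) =
      aeval x (hsum (Fin.castLE (le_nw k S) i) (numB k S i) T) := by
    intro T
    induction T with
    | nil => simp [hsum, rawEval_nil]
    | cons c T ih =>
      rw [List.flatMap_cons, rawEval_append, rawEval_mulRaw, ih, rawEval_hraw]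
      simp [hsum]
  unfold blockRaw
  rw [rawEval_mulRaw, h, rawEval_cons, rawEval_nil, List.map_map]
  have h2 : ((List.range (2 * s)).map (xt x ∘ fun _ => (i : ℕ))).prod =
      x (Fin.castLE (le_nw k S) i) ^ (2 * s) := by
    rw [← xt_y x i]
    have : (xt x ∘ fun _ : ℕ => (i : ℕ)) = fun _ => xt x (i : ℕ) := rfl
    rw [this, List.map_const', List.prod_replicate, List.length_range]
  rw [h2]
  simp [sgn]

theorem rawEval_flat (y : ℕ → ℝ) {β : Type} (l : List β) (F : β → Raw) :
    rawEval y (l.flatMap F) = (l.map fun b => rawEval y (F b)).sum := by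
  induction l with
  | nil => simp [rawEval_nil]
  | cons b l ih => rw [List.flatMap_cons, rawEval_append, ih, List.map_cons, List.sum_cons]

theorem rawEval_form {k : ℕ} (s : ℕ) {S : List Con} (x : Fin (nw k S) → ℝ) :
    rawEval (xt x) (formRaw k s S) = aeval x (form (le_nw k S) s (numB k S) S) := by
  unfold formRaw
  rw [rawEval_flat, form_aeval]
  have h2 : (List.range k).map (fun i => rawEval (xt x) (blockRaw k s S i)) =
      (List.finRange k).map fun i : Fin k => rawEval (xt x) (blockRaw k s S i) := by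
    rw [← List.map_coe_finRange_eq_range, List.map_map]
    rfl
  rw [h2, ← List.ofFn_eq_map, List.sum_ofFn]
  exact Finset.sum_congr rfl fun i _ => rawEval_block s i x

/-- The raw form of `g`; the form is added (`b = false`) or subtracted (`b = true`). -/
def gRaw2 (k s : ℕ) (b : Bool) (R : Raw) (S : List Con) : Raw :=
  R ++ mulRaw [(b, [])] (formRaw k s S)

/-- The instance of a system. -/
def inst2 (k s : ℕ) (b : Bool) (R : Raw) (S : List Con) : AffInst :=
  (nw k S, collect (nw k S) R, collect (nw k S) (gRaw2 k s b R S))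

/-- The polynomial `g`. -/
noncomputable def gp {k : ℕ} (p : MvPolynomial (Fin k) ℤ) (s : ℕ) (b : Bool) (S : List Con) :
    MvPolynomial (Fin (nw k S)) ℤ :=
  rename (Fin.castLE (le_nw k S)) p + C (sgn b) * form (le_nw k S) s (numB k S) S

theorem gp_aeval {k : ℕ} (p : MvPolynomial (Fin k) ℤ) (s : ℕ) (b : Bool) (S : List Con)
    (y : Fin (nw k S) → ℝ) : aeval y (gp p s b S) =
      aeval (fun i => y (Fin.castLE (le_nw k S) i)) p +
        (sgn b : ℝ) * aeval y (form (le_nw k S) s (numB k S) S) := by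
  unfold gp
  rw [map_add, map_mul, aeval_rename, algHom_C]
  rfl

theorem toPoly_f2 {k : ℕ} (p : MvPolynomial (Fin k) ℤ) {R : Raw} (hR : Lt k R)
    (hRp : ∀ y : ℕ → ℝ, rawEval y R = aeval (fun i : Fin k => y i) p) (S : List Con) :
    (collect (nw k S) R).toPoly (nw k S) = rename (Fin.castLE (le_nw k S)) p := by
  refine ext_aeval fun x => ?_
  rw [aeval_collect _ (hR.mono (le_nw k S)), hRp, aeval_rename]
  congr 2
  ext i
  exact xt_y x i

theorem toPoly_g2 {k : ℕ} (p : MvPolynomial (Fin k) ℤ) {R : Raw} (hR : Lt k R)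
    (hRp : ∀ y : ℕ → ℝ, rawEval y R = aeval (fun i : Fin k => y i) p) (s : ℕ) (b : Bool)
    (S : List Con) :
    (collect (nw k S) (gRaw2 k s b R S)).toPoly (nw k S) = gp p s b S := by
  refine ext_aeval fun x => ?_
  have hb : Lt (nw k S) [(b, [])] := by simp [Lt]
  unfold gRaw2
  rw [aeval_collect _ ((hR.mono (le_nw k S)).append (hb.mulRaw (formRaw_lt k s S))), gp_aeval,
    rawEval_append, rawEval_mulRaw, hRp, rawEval_form, rawEval_cons, rawEval_nil]
  simp only [xt_y]
  simp

theorem gp_deg {k : ℕ} (p : MvPolynomial (Fin k) ℤ) (s : ℕ) (b : Bool) (S : List Con)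
    {D : ℕ} (h1 : p.totalDegree ≤ D) (h2 : 2 * s + 4 ≤ D) : (gp p s b S).totalDegree ≤ D := by
  unfold gp
  refine (totalDegree_add _ _).trans (max_le ((totalDegree_rename_le _ _).trans h1) ?_)
  refine (totalDegree_mul _ _).trans ?_
  rw [totalDegree_C, zero_add]
  exact (form_deg _ _ _ _).trans h2

theorem lin_of_sat {k : ℕ} (p : MvPolynomial (Fin k) ℤ) {R : Raw} (hR : Lt k R)
    (hRp : ∀ y : ℕ → ℝ, rawEval y R = aeval (fun i : Fin k => y i) p) (s : ℕ) (b : Bool)
    {S : List Con} (hS : Sat S) : LinearProjection (inst2 k s b R S) := by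
  obtain ⟨v, hv⟩ := hS
  have hf := toPoly_f2 p hR hRp S
  have hg := toPoly_g2 p hR hRp s b S
  unfold LinearProjection inst2
  simp only
  refine ⟨collect_valid _ _, collect_valid _ _, ?_⟩
  rw [hf, hg]
  -- the variable number `j ≥ k` is `x_i v_a`, where `j = k + i * bs S + idx a`
  refine ⟨Matrix.of fun j l => if (j : ℕ) < k then (if l = j then 1 else 0)
    else (if (l : ℕ) = ((j : ℕ) - k) / bs S then
      v ((varsOf S).getD (((j : ℕ) - k) % bs S) 0) else 0), fun x => ?_⟩
  set A : Matrix (Fin (nw k S)) (Fin (nw k S)) ℝ := Matrix.of fun j l =>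
    if (j : ℕ) < k then (if l = j then 1 else 0)
    else (if (l : ℕ) = ((j : ℕ) - k) / bs S then
      v ((varsOf S).getD (((j : ℕ) - k) % bs S) 0) else 0) with hA
  have hy : ∀ i : Fin k, A.mulVec x (Fin.castLE (le_nw k S) i) =
      x (Fin.castLE (le_nw k S) i) := by
    intro i
    have h1 : ((Fin.castLE (le_nw k S) i : Fin (nw k S)) : ℕ) < k := i.2
    simp only [hA, Matrix.mulVec, dotProduct, Matrix.of_apply, if_pos h1]
    simp
  have hz : ∀ (i : Fin k) (a : ℕ), a ∈ varsOf S → A.mulVec x (numB k S i a) =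
      x (Fin.castLE (le_nw k S) i) * v a := by
    intro i a ha
    have hlt : (varsOf S).idxOf a < (varsOf S).length := List.idxOf_lt_length_iff.2 ha
    have hb : (varsOf S).idxOf a < bs S := by unfold bs; omega
    have h1 : ¬ ((numB k S i a : Fin (nw k S)) : ℕ) < k := by
      simp only [numB]
      omega
    have h2 : ((numB k S i a : Fin (nw k S)) : ℕ) - k = (varsOf S).idxOf a + (i : ℕ) * bs S := by
      simp only [numB]
      omega
    have h3 : ((varsOf S).idxOf a + (i : ℕ) * bs S) / bs S = i := by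
      rw [Nat.add_mul_div_right _ _ (by unfold bs; omega), Nat.div_eq_of_lt hb, zero_add]
    have h4 : ((varsOf S).idxOf a + (i : ℕ) * bs S) % bs S = (varsOf S).idxOf a := by
      rw [Nat.add_mul_mod_self_right, Nat.mod_eq_of_lt hb]
    have h5 : (varsOf S).getD ((varsOf S).idxOf a) 0 = a := by
      rw [List.getD_eq_getElem?_getD, List.getElem?_eq_getElem hlt]
      simp
    simp only [hA, Matrix.mulVec, dotProduct, Matrix.of_apply, if_neg h1, h2, h3, h4, h5]
    rw [Finset.sum_eq_single (Fin.castLE (le_nw k S) i)]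
    · simp [mul_comm]
    · intro l _ hl
      have : ¬ (l : ℕ) = (i : ℕ) := fun h => hl (Fin.ext h)
      simp [this]
    · intro h
      exact absurd (Finset.mem_univ _) h
  have h0 : aeval (A.mulVec x) (form (le_nw k S) s (numB k S) S) = 0 := by
    rw [form_aeval]
    refine Finset.sum_eq_zero fun i _ => ?_
    have : aeval (A.mulVec x) (hsum (Fin.castLE (le_nw k S) i) (numB k S i) S) = 0 := by
      rw [hsum_zero]
      intro c hc
      refine hpoly_of_holds _ _ c _ v (fun a ha => ?_) (hv c hc)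
      rw [hy]
      exact hz i a (List.mem_flatMap.2 ⟨c, hc, ha⟩)
    rw [this, mul_zero]
  rw [gp_aeval, h0, mul_zero, add_zero, aeval_rename]
  congr 2
  ext i
  exact (hy i).symm

theorem sat_of_aff {k : ℕ} (p : MvPolynomial (Fin k) ℤ) {R : Raw} (hR : Lt k R)
    (hRp : ∀ y : ℕ → ℝ, rawEval y R = aeval (fun i : Fin k => y i) p) {s : ℕ} {b : Bool}
    (hd : p.totalDegree < 2 * s + 4)
    (hb : ∃ x : Fin k → ℝ, (sgn b : ℝ) * aeval x p < (sgn b : ℝ) * aeval (0 : Fin k → ℝ) p)
    {S : List Con} (h : AffineProjection (inst2 k s b R S)) : Sat S := by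
  have hf := toPoly_f2 p hR hRp S
  have hg := toPoly_g2 p hR hRp s b S
  unfold AffineProjection inst2 at h
  obtain ⟨-, -, A, c, h⟩ := h
  simp only at h
  rw [hf, hg] at h
  have h1 : (sgn b : ℝ) ≠ 0 := by cases b <;> simp [sgn]
  have h2 : (sgn b : ℝ) * (sgn b : ℝ) = 1 := by cases b <;> simp [sgn]
  obtain ⟨u, hu, i, hi⟩ := exists_top (le_nw k S) p (sgn b : ℝ) h1 hb h2 hd
    (form (le_nw k S) s (numB k S) S) (form_smul _ _ _ _) (form_nonneg _ _ _ _) A c (fun x => by
      have h3 := h x
      rw [aeval_rename, gp_aeval] at h3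
      exact h3)
  exact ⟨_, form_sat _ _ _ _ u hu i hi⟩

/-! ### Polynomial time -/

section

variable {α : Type} [TEnc α]

theorem hraw_eq (t o : ℕ) (V : List ℕ) (c : Con) : hraw t o V c =
    if c.code.1 = 0 then [(false, [t, o + V.idxOf c.code.2.1]), (true, [t, t])]
    else if c.code.1 = 1 then [(false, [t, o + V.idxOf c.code.2.1]),
      (false, [t, o + V.idxOf c.code.2.2.1]), (true, [t, o + V.idxOf c.code.2.2.2])]
    else [(false, [o + V.idxOf c.code.2.1, o + V.idxOf c.code.2.2.1]),
      (true, [t, o + V.idxOf c.code.2.2.2])] := by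
  cases c <;> rfl

theorem poly_hraw {t o : α → ℕ} {V : α → List ℕ} {c : α → Con} (ht : Poly t) (ho : Poly o)
    (hV : Poly V) (hc : Poly c) : Poly (fun a => hraw (t a) (o a) (V a) (c a)) := by
  simp only [hraw_eq]
  have h0 := poly_con_code hc
  have i1 := Poly.add ho (poly_idxOf hV (Poly.fst (Poly.snd h0)))
  have i2 := Poly.add ho (poly_idxOf hV (Poly.fst (Poly.snd (Poly.snd h0))))
  have i3 := Poly.add ho (poly_idxOf hV (Poly.snd (Poly.snd (Poly.snd h0))))
  have l2 : ∀ {x y : α → ℕ}, Poly x → Poly y → Poly (fun a => [x a, y a]) := fun hx hy =>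
    Poly.cons hx (Poly.cons hy (Poly.const []))
  refine Poly.ite (Poly.decide_eq (Poly.fst h0) (Poly.const 0))
    (Poly.cons (Poly.pair (Poly.const _) (l2 ht i1)) (Poly.cons (Poly.pair (Poly.const _)
      (l2 ht ht)) (Poly.const [])))
    (Poly.ite (Poly.decide_eq (Poly.fst h0) (Poly.const 1))
      (Poly.cons (Poly.pair (Poly.const _) (l2 ht i1)) (Poly.cons (Poly.pair (Poly.const _)
        (l2 ht i2)) (Poly.cons (Poly.pair (Poly.const _) (l2 ht i3)) (Poly.const []))))
      (Poly.cons (Poly.pair (Poly.const _) (l2 i1 i2))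
        (Poly.cons (Poly.pair (Poly.const _) (l2 ht i3)) (Poly.const []))))

theorem poly_bs {S : α → List Con} (hS : Poly S) : Poly (fun a => bs (S a)) :=
  Poly.add (Poly.length (poly_varsOf hS)) (Poly.const 1)

theorem poly_blockRaw (k s : ℕ) {S : α → List Con} {i : α → ℕ} (hS : Poly S) (hi : Poly i) :
    Poly (fun a => blockRaw k s (S a) (i a)) := by
  unfold blockRaw
  refine poly_mulRaw (Poly.cons (Poly.pair (Poly.const false) (Poly.map (F := fun a _ => i a)
    (Poly.const (List.range (2 * s))) (hi.comp (Poly.fst Poly.id)))) (Poly.const [])) ?_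
  refine Poly.flatMap (F := fun a c => mulRaw (hraw (i a) (k + i a * bs (S a)) (varsOf (S a)) c)
      (hraw (i a) (k + i a * bs (S a)) (varsOf (S a)) c)) hS ?_
  have h := poly_hraw (α := α × Con) (hi.comp (Poly.fst Poly.id))
    (Poly.add (Poly.const k) (Poly.mul (hi.comp (Poly.fst Poly.id))
      ((poly_bs hS).comp (Poly.fst Poly.id)))) ((poly_varsOf hS).comp (Poly.fst Poly.id))
    (Poly.snd Poly.id)
  exact poly_mulRaw h h

theorem poly_formRaw (k s : ℕ) {S : α → List Con} (hS : Poly S) :
    Poly (fun a => formRaw k s (S a)) := by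
  unfold formRaw
  exact Poly.flatMap (F := fun a i => blockRaw k s (S a) i) (Poly.const (List.range k))
    (poly_blockRaw k s (hS.comp (Poly.fst Poly.id)) (Poly.snd Poly.id))

theorem upoly_nw (k : ℕ) {S : α → List Con} (hS : Poly S) : UPoly (fun a => nw k (S a)) :=
  UPoly.add (UPoly.const k) (UPoly.mul (UPoly.const k)
    (UPoly.add (UPoly.length (poly_varsOf hS)) (UPoly.const 1)))

theorem poly_inst2 (k s : ℕ) (b : Bool) (R : Raw) {S : α → List Con} (hS : Poly S) :
    Poly (fun a => inst2 k s b R (S a)) := by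
  unfold inst2
  refine Poly.pair (UPoly.toPoly (upoly_nw k hS)) (Poly.pair
    (poly_collect (upoly_nw k hS) (Poly.const R)) (poly_collect (upoly_nw k hS) ?_))
  exact Poly.append (Poly.const R) (poly_mulRaw (Poly.const _) (poly_formRaw k s hS))

end

end Pool.Agent.NPC.H768AP
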